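import Mathlib
import Pool.Agent.H29.DivDimDefs
import Pool.Agent.H29.DivDim

set_option autoImplicit false

namespace Pool.Agent.Results.MP_d046ed_co.Limit

open Pool.Agent.H29.DivDim Filter Topology

theorem result : ∀ (α : ℝ) (t : ℕ), 0 < α → α < 1 → 2 ≤ t →
    Tendsto (fun n : ℕ => (dimDiv t (Itv α n) : ℝ) / (1 / Real.log t * Real.log n))
      atTop (𝓝 1) := by
  intro α t h0 h1 ht
  obtain ⟨K, hK⟩ : ∃ K, K = ⌊1 / α⌋₊ := ⟨_, rfl⟩
  have t1 : (2 : ℝ) ≤ t := by exact_mod_cast ht
  have T0 : 0 < Real.log t := Real.log_pos (by linarith)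
  have mem := fun n : ℕ => upper t K n (Nat.log t n + 1) (Nat.log 2 ((Nat.log 2 n + 1) * t) + 1)
    ht (Itv α n) (fun m hm => ⟨hm.1, hm.2.2⟩) (hK ▸ ratio h0 n)
    (Nat.lt_pow_succ_log_self (by omega) n)
    (lt_of_le_of_lt (Nat.mul_le_mul_right _ (Nat.succ_le_succ (Nat.log_anti_left (by norm_num) ht)))
      (Nat.lt_pow_succ_log_self (by norm_num) _))
    (lt_of_le_of_lt (by nlinarith) (Nat.lt_pow_succ_log_self (by norm_num) _)) (Nat.succ_pos _)
  have hx : Tendsto (fun n : ℕ => Real.log n) atTop atTop :=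
    Real.tendsto_log_atTop.comp tendsto_natCast_atTop_atTop
  obtain ⟨c, hc⟩ : ∃ c : ℝ, c = 2 * Real.log (3 * t) + 3 := ⟨_, rfl⟩
  have c0 : 0 ≤ Real.log (3 * t) := Real.log_nonneg (by linarith)
  obtain ⟨C, hC⟩ : ∃ C : ℝ, C = 1 + 2 * c + (2 * (K + 1) * c) ^ (K + 1) := ⟨_, rfl⟩
  have lo : Tendsto (fun n : ℕ => 1 + Real.log (1 - α) / Real.log n) atTop (𝓝 1) := by
    simpa using (hx.const_div_atTop (Real.log (1 - α))).const_add 1
  have hi : Tendsto (fun n : ℕ => 1 + Real.log t * C *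
      (Real.log (Real.log n) ^ (K + 1) / Real.log n)) atTop (𝓝 1) := by
    have := ((Real.isLittleO_pow_log_id_atTop (n := K + 1)).tendsto_div_nhds_zero.comp hx)
    simpa using (this.const_mul (Real.log t * C)).const_add 1
  refine tendsto_of_tendsto_of_tendsto_of_le_of_le' lo hi ?_ ?_
  · filter_upwards [hx.eventually_ge_atTop 1, eventually_ge_atTop 1] with n x1 n1
    have n0 : (0 : ℝ) < n := by exact_mod_cast n1
    have a1 : (1 - α) * n ≤ (t : ℝ) ^ dimDiv t (Itv α n) :=
      (card_itv h0 h1 n).trans (by exact_mod_cast lower (mem n))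
    have a2 := Real.log_le_log (mul_pos (by linarith) n0) a1
    rw [Real.log_mul (by linarith) n0.ne', Real.log_pow] at a2
    rw [le_div_iff₀ (by positivity)]
    field_simp
    linarith
  · filter_upwards [hx.eventually_ge_atTop 1,
      (Real.tendsto_log_atTop.comp hx).eventually_ge_atTop 1, eventually_ge_atTop 1] with n x1 y1 n1
    have a0 : dimDiv t (Itv α n) ≤ _ := Nat.sInf_le (mem n)
    have a1 := logle t n (by omega) (by omega)
    have a2 := logle 2 n (by omega) (by omega)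
    have a3 := logle 2 ((Nat.log 2 n + 1) * t) (by omega) (by positivity)
    have l2 := Real.log_two_gt_d9
    simp only [Function.comp] at y1
    generalize Nat.log 2 ((Nat.log 2 n + 1) * t) = B at a0 a3
    generalize Nat.log 2 n = L at a2 a3
    generalize Nat.log t n = D at a0 a1
    generalize dimDiv t (Itv α n) = d at a0
    generalize Real.log n = x at *
    push_cast at a2 a3
    have L0 : (0 : ℝ) ≤ L := Nat.cast_nonneg _
    have B0 : (0 : ℝ) ≤ B := Nat.cast_nonneg _
    have b1 : ((L : ℝ) + 1) * t ≤ 3 * t * x := by nlinarith [show (L : ℝ) + 1 ≤ 3 * x by nlinarith]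
    have b2 := Real.log_le_log (by positivity) b1
    rw [Real.log_mul (x := 3 * t) (by positivity) (by positivity)] at b2
    generalize Real.log x = y at *
    have b3 : (B : ℝ) + 1 ≤ c * y := by rw [hc]; nlinarith
    have b4 : y ≤ y ^ (K + 1) := le_self_pow₀ y1 (by omega)
    have b5 : (2 * (K + 1) * ((B : ℝ) + 1)) ^ (K + 1) ≤
        (2 * (K + 1) * c) ^ (K + 1) * y ^ (K + 1) := by
      rw [← mul_pow, mul_assoc _ c]
      gcongr
    have b6 : (d : ℝ) ≤ D + 1 + 2 * (B + 1) + (2 * (K + 1) * ((B : ℝ) + 1)) ^ (K + 1) := by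
      exact_mod_cast a0
    have b7 : (d : ℝ) ≤ D + C * y ^ (K + 1) := by
      have : 0 ≤ c := by linarith
      rw [hC]
      nlinarith
    rw [div_le_iff₀ (by positivity)]
    field_simp
    nlinarith

end Pool.Agent.Results.MP_d046ed_co.Limit
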